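import Pool.Agent.helper80.EN.Spec5

/-!
# Row eb:GLK (MP_202db4_al)

The congruence subgroup of a nilpotent ideal is solvable.
-/

set_option autoImplicit false

namespace Pool.Agent.helper80.EN

open Subgroup

universe u

/-- the congruence subgroup of the ideal `J` -/
abbrev GLK_K (R : Type u) [CommRing R] (J : Ideal R) (n : ℕ) : Subgroup (GL (Fin n) R) :=
  (Matrix.GeneralLinearGroup.map (n := Fin n) (Ideal.Quotient.mk J)).ker

theorem GLK_mem {R : Type u} [CommRing R] (J : Ideal R) (n : ℕ) (g : GL (Fin n) R) :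
    g ∈ GLK_K R J n ↔ ∀ i j, (g : Matrix (Fin n) (Fin n) R) i j - (1 : Matrix (Fin n) (Fin n) R) i j ∈ J := by
  rw [MonoidHom.mem_ker]
  constructor
  · intro h i j
    have h1 := congrArg (fun x : GL (Fin n) (R ⧸ J) => (x : Matrix (Fin n) (Fin n) (R ⧸ J)) i j) h
    have h2 : Ideal.Quotient.mk J ((g : Matrix (Fin n) (Fin n) R) i j) =
        (1 : Matrix (Fin n) (Fin n) (R ⧸ J)) i j := h1
    rw [← Ideal.Quotient.eq_zero_iff_mem, map_sub, h2, sub_eq_zero, Matrix.one_apply, Matrix.one_apply]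
    split_ifs
    · rw [map_one]
    · rw [map_zero]
  · intro h
    apply Units.ext
    ext i j
    have h1 := h i j
    rw [← Ideal.Quotient.eq_zero_iff_mem, map_sub, sub_eq_zero] at h1
    change Ideal.Quotient.mk J ((g : Matrix (Fin n) (Fin n) R) i j) =
      (1 : Matrix (Fin n) (Fin n) (R ⧸ J)) i j
    rw [h1, Matrix.one_apply, Matrix.one_apply]
    split_ifs
    · rw [map_one]
    · rw [map_zero]

/-- if `J ^ 2 = 0` then the congruence subgroup is abelian -/
theorem GLK_comm {R : Type u} [CommRing R] (J : Ideal R) (n : ℕ) (hJ : J * J = ⊥)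
    (a b : GLK_K R J n) : a * b = b * a := by
  apply Subtype.ext
  apply Units.ext
  change (a.1 : Matrix (Fin n) (Fin n) R) * (b.1 : Matrix (Fin n) (Fin n) R) =
    (b.1 : Matrix (Fin n) (Fin n) R) * (a.1 : Matrix (Fin n) (Fin n) R)
  have ha := (GLK_mem J n a.1).1 a.2
  have hb := (GLK_mem J n b.1).1 b.2
  have hz : ∀ A B : Matrix (Fin n) (Fin n) R, (∀ i j, A i j ∈ J) → (∀ i j, B i j ∈ J) →
      A * B = 0 := by
    intro A B hA hB
    ext i j
    rw [Matrix.mul_apply, Matrix.zero_apply]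
    refine Finset.sum_eq_zero fun k _ => ?_
    have : A i k * B k j ∈ J * J := Ideal.mul_mem_mul (hA i k) (hB k j)
    rw [hJ] at this
    exact this
  have e1 := hz ((a.1 : Matrix (Fin n) (Fin n) R) - 1) ((b.1 : Matrix (Fin n) (Fin n) R) - 1)
    (fun i j => ha i j) (fun i j => hb i j)
  have e2 := hz ((b.1 : Matrix (Fin n) (Fin n) R) - 1) ((a.1 : Matrix (Fin n) (Fin n) R) - 1)
    (fun i j => hb i j) (fun i j => ha i j)
  have e3 := e1.trans e2.symm
  rw [Matrix.sub_mul, Matrix.mul_sub, Matrix.mul_one, Matrix.one_mul, Matrix.sub_mul, Matrix.mul_sub,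
    Matrix.mul_one, Matrix.one_mul] at e3
  have e4 : ((a.1 : Matrix (Fin n) (Fin n) R) * (b.1 : Matrix (Fin n) (Fin n) R) -
      (a.1 : Matrix (Fin n) (Fin n) R) - ((b.1 : Matrix (Fin n) (Fin n) R) - 1)) +
      ((a.1 : Matrix (Fin n) (Fin n) R) + (b.1 : Matrix (Fin n) (Fin n) R) - 1) =
      ((b.1 : Matrix (Fin n) (Fin n) R) * (a.1 : Matrix (Fin n) (Fin n) R) -
      (b.1 : Matrix (Fin n) (Fin n) R) - ((a.1 : Matrix (Fin n) (Fin n) R) - 1)) +
      ((a.1 : Matrix (Fin n) (Fin n) R) + (b.1 : Matrix (Fin n) (Fin n) R) - 1) := by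
    rw [e3]
  have e5 : ∀ A B C : Matrix (Fin n) (Fin n) R, (C - A - (B - 1)) + (A + B - 1) = C := by
    intro A B C
    abel
  have e6 : ∀ A B C : Matrix (Fin n) (Fin n) R, (C - B - (A - 1)) + (A + B - 1) = C := by
    intro A B C
    abel
  rw [e5, e6] at e4
  exact e4

theorem GLK : GLK_stmt.{u} := by
  have key : ∀ (k : ℕ) (R : Type u) [CommRing R] (J : Ideal R) (n : ℕ), J ^ (k + 1) = ⊥ →
      Group.IsSolvable (GLK_K R J n) := by
    intro k
    induction k with
    | zero =>
      intro R _ J n hJ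
      have hJ0 : J * J = ⊥ := by
        rw [zero_add, pow_one] at hJ
        rw [hJ, Ideal.mul_bot]
      exact Group.isSolvable_of_comm (GLK_comm J n hJ0)
    | succ k ih =>
      intro R _ J n hJ
      -- the subgroup of the power
      have h1 : Group.IsSolvable (GLK_K R (J ^ (k + 1)) n) := by
        refine Group.isSolvable_of_comm (GLK_comm (J ^ (k + 1)) n ?_)
        rw [← pow_add]
        refine le_bot_iff.1 ?_
        rw [← hJ]
        exact Ideal.pow_le_pow_right (by omega)
      have h2 := ih (R ⧸ (J ^ (k + 1))) (J.map (Ideal.Quotient.mk (J ^ (k + 1)))) n (by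
        rw [← Ideal.map_pow, Ideal.map_quotient_self])
      have hle : GLK_K R (J ^ (k + 1)) n ≤ GLK_K R J n := by
        intro g hg
        rw [GLK_mem] at hg ⊢
        intro i j
        exact Ideal.pow_le_self (Nat.succ_ne_zero k) (hg i j)
      let f1 : GLK_K R J n →* GL (Fin n) (R ⧸ (J ^ (k + 1))) :=
        (Matrix.GeneralLinearGroup.map (Ideal.Quotient.mk (J ^ (k + 1)))).comp (GLK_K R J n).subtype
      have hf1 : ∀ g, f1 g ∈ GLK_K (R ⧸ (J ^ (k + 1)))
          (J.map (Ideal.Quotient.mk (J ^ (k + 1)))) n := by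
        intro g
        rw [GLK_mem]
        intro i j
        have h3 := (GLK_mem J n g.1).1 g.2 i j
        have h4 := Ideal.mem_map_of_mem (Ideal.Quotient.mk (J ^ (k + 1))) h3
        rw [map_sub] at h4
        have h5 : Ideal.Quotient.mk (J ^ (k + 1)) ((1 : Matrix (Fin n) (Fin n) R) i j) =
            (1 : Matrix (Fin n) (Fin n) (R ⧸ (J ^ (k + 1)))) i j := by
          rw [Matrix.one_apply, Matrix.one_apply]
          split_ifs
          · rw [map_one]
          · rw [map_zero]
        rw [h5] at h4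
        exact h4
      refine @Group.isSolvable_of_ker_le_range _ _ _ _ _ _ (Subgroup.inclusion hle)
        (f1.codRestrict _ hf1) ?_ h1 h2
      intro g hg
      rw [MonoidHom.mem_ker] at hg
      have h6 : f1 g = 1 := congrArg Subtype.val hg
      exact ⟨⟨g.1, h6⟩, rfl⟩
  intro R _ J n k hJ
  refine key k R J n ?_
  rw [pow_succ, hJ, Ideal.bot_mul]

end Pool.Agent.helper80.EN
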