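import Pool.Agent.helper62.EN.SpecA

set_option autoImplicit false

open scoped Topology
open MeasureTheory Filter Set

namespace Pool.Agent.EN

theorem LM1_bdd {X : Type} [TopologicalSpace X] [CompactSpace X] (V : X → ℝ) (hV : Continuous V) :
    ∃ C : ℝ, ∀ x, |V x| ≤ C := by
  obtain ⟨C, hC⟩ := isCompact_univ.exists_bound_of_continuousOn (f := V) hV.continuousOn
  exact ⟨C, fun x => by simpa [Real.norm_eq_abs] using hC x (mem_univ x)⟩

/-- The average over `[0, n]` of numbers at most `a` is at most `a`. -/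
theorem LM1_avg {X : Type} [TopologicalSpace X] [CompactSpace X] [T2Space X] [SecondCountableTopology X]
    [MeasurableSpace X] [BorelSpace X] (f : ℝ → X → X) (hf : FlowOn f) (ρ : Measure X)
    [IsProbabilityMeasure ρ] (V : X → ℝ) (hV : Continuous V) (n : ℕ) (hn : 1 ≤ n) (a : ℝ)
    (h : ∀ t : ℝ, 0 ≤ t → t ≤ n → ∫ x, V (f t x) ∂ρ ≤ a) :
    (1 / n : ℝ) * ∫ t in (0 : ℝ)..n, ∫ x, V (f t x) ∂ρ ≤ a := by
  obtain ⟨C, hC⟩ := LM1_bdd V hV
  have hn' : (0 : ℝ) < n := by exact_mod_cast hn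
  have hcont : Continuous fun t : ℝ => ∫ x, V (f t x) ∂ρ := by
    refine continuous_of_dominated (bound := fun _ => C) ?_ ?_ (integrable_const C) ?_
    · intro t
      have h1 : Continuous fun x => V (f t x) :=
        hV.comp (hf.cont.comp (continuous_const.prodMk continuous_id))
      exact h1.aestronglyMeasurable
    · intro t
      exact Eventually.of_forall fun x => by rw [Real.norm_eq_abs]; exact hC _
    · exact Eventually.of_forall fun x => hV.comp (hf.cont.comp (continuous_id.prodMk continuous_const))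
  have h1 : ∫ t in (0 : ℝ)..n, ∫ x, V (f t x) ∂ρ ≤ ∫ t in (0 : ℝ)..n, a := by
    refine intervalIntegral.integral_mono_on hn'.le (hcont.intervalIntegrable _ _)
      (continuous_const.intervalIntegrable _ _) fun t ht => h t ht.1 ht.2
  rw [intervalIntegral.integral_const, sub_zero, smul_eq_mul] at h1
  calc (1 / n : ℝ) * ∫ t in (0 : ℝ)..n, ∫ x, V (f t x) ∂ρ ≤ (1 / n : ℝ) * (n * a) :=
        mul_le_mul_of_nonneg_left h1 (by positivity)
    _ = a := by field_simp

theorem LM1_zero {X : Type} [MeasurableSpace X] (μ : Measure X) [IsProbabilityMeasure μ] (T : X → X)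
    {p : ℕ} (P : X → Fin p) : Hn μ T P 0 = 0 := by
  unfold Hn
  simp

theorem LM1_proof (h1 : SMP_stmt) (h2 : INL_stmt) (h3 : MIS_stmt) (h4 : CNT_stmt) : LM1_stmt := by
  intro X _ _ _ _ _ _ f ρ n hf hρ hn
  have hcf : ∀ t, Continuous (f t) := fun t => hf.cont.comp (continuous_const.prodMk continuous_id)
  have hmf : ∀ t, Measurable (f t) := fun t => (hcf t).measurable
  have hsm : ∀ k, IsProbabilityMeasure (sm f (ρ k)) := fun k => (h1 X f (ρ k) hf (hρ k)).1
  have hsp : ∀ k (m : ℕ), 1 ≤ m → IsProbabilityMeasure (av (f 1) m (sm f (ρ k))) := fun k m hm =>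
    (h1 X f (sm f (ρ k)) hf (hsm k)).2.1 m (f 1) hm (hmf 1)
  let a : ℕ → ProbabilityMeasure X := fun k =>
    ⟨av (f 1) (max (n k) 1) (sm f (ρ k)), hsp k _ (le_max_right _ _)⟩
  let L : Ultrafilter ℕ := hyperfilter ℕ
  have hL : (L : Filter ℕ) ≤ atTop := Nat.hyperfilter_le_atTop
  obtain ⟨μ, -, hμ⟩ := isCompact_univ.ultrafilter_le_nhds (L.map a) (by simp)
  have hμ' : Tendsto a (L : Filter ℕ) (𝓝 μ) := hμ
  have hnL : Tendsto n (L : Filter ℕ) atTop := hn.mono_left hL
  have hn1 : ∀ᶠ k in atTop, 1 ≤ n k := hn.eventually_ge_atTop 1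
  have ha : ∀ k, 1 ≤ n k → (a k : Measure X) = av (f 1) (n k) (sm f (ρ k)) := by
    intro k hk
    change av (f 1) (max (n k) 1) (sm f (ρ k)) = _
    rw [max_eq_left hk]
  have hinv : ∀ t, (μ : Measure X).map (f t) = μ :=
    h2 X f ρ n L a μ hf hρ L.neBot hnL ((hn1.filter_mono hL).mono ha) hμ'
  refine ⟨μ, inferInstance, hinv, ?_, ?_⟩
  · intro V A hV hA
    have h5 : Tendsto (fun k => ∫ x, V x ∂(a k : Measure X)) (L : Filter ℕ) (𝓝 (∫ x, V x ∂(μ : Measure X))) := by
      have h6 := (ProbabilityMeasure.tendsto_iff_forall_integral_tendsto.1 hμ')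
        (BoundedContinuousFunction.mkOfCompact ⟨V, hV⟩)
      exact h6
    refine le_of_tendsto h5 ?_
    filter_upwards [hn1.filter_mono hL, hA.filter_mono hL] with k hk1 hk2
    have := hρ k
    rw [ha k hk1, (h1 X f (ρ k) hf (hρ k)).2.2.2 V (n k) hV hk1]
    exact LM1_avg f hf (ρ k) V hV (n k) hk1 A hk2
  · intro p P h hP hfr hh j
    rcases Nat.eq_zero_or_pos j with hj | hj
    · subst hj
      rw [LM1_zero (μ : Measure X) (f 1) P]
      simp
    have h5 := h4 X ℕ L a μ (f 1) p P j hμ' (hcf 1) (hinv 1) hfr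
    have hj' : (0 : ℝ) < j := by exact_mod_cast hj
    have key : ∀ ε : ℝ, 0 < ε → (h - ε) * j ≤ Hn (μ : Measure X) (f 1) P j := by
      intro ε hε
      have h6 : Tendsto (fun k => Hn (a k : Measure X) (f 1) P j + 2 * (j : ℝ) ^ 2 * Real.log p / (n k : ℝ))
          (L : Filter ℕ) (𝓝 (Hn (μ : Measure X) (f 1) P j + 0)) := by
        refine h5.add ?_
        exact tendsto_const_nhds.div_atTop (tendsto_natCast_atTop_atTop.comp hnL)
      rw [add_zero] at h6
      refine ge_of_tendsto h6 ?_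
      filter_upwards [hn1.filter_mono hL, (hh ε hε).filter_mono hL] with k hk1 hk2
      have hk0 : (0 : ℝ) < n k := by exact_mod_cast hk1
      have h7 := h3 X (sm f (ρ k)) (f 1) p P j (n k) (hsm k) (hmf 1) hP hj hk1
      rw [ha k hk1]
      change (j : ℝ) * Hn (sm f (ρ k)) (f 1) P (n k) ≤
        n k * Hn (av (f 1) (n k) (sm f (ρ k))) (f 1) P j + 2 * (j : ℝ) ^ 2 * Real.log p at h7
      have h8 : (j : ℝ) * ((h - ε) * n k) ≤
          n k * Hn (av (f 1) (n k) (sm f (ρ k))) (f 1) P j + 2 * (j : ℝ) ^ 2 * Real.log p :=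
        (mul_le_mul_of_nonneg_left hk2 hj'.le).trans h7
      have h9 : (h - ε) * j = ((j : ℝ) * ((h - ε) * n k)) / n k := by field_simp
      rw [h9, div_le_iff₀ hk0, add_mul, div_mul_cancel₀ _ hk0.ne']
      linarith
    by_contra hlt
    push Not at hlt
    have h6 : 0 < (h * j - Hn (μ : Measure X) (f 1) P j) / (2 * j) := by
      apply div_pos (by linarith) (by positivity)
    have h7 := key _ h6
    have h8 : (h - (h * j - Hn (μ : Measure X) (f 1) P j) / (2 * j)) * j =
        h * j - (h * j - Hn (μ : Measure X) (f 1) P j) / 2 := by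
      field_simp
    rw [h8] at h7
    linarith

end Pool.Agent.EN
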