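import Pool.Agent.helper80.EN.Spec2

set_option autoImplicit false

namespace Pool.Agent.helper80.EN

open Subgroup

universe u

theorem TSE (hTG : TG_stmt.{u}) (hTEL : TEL_stmt.{u}) (hTHL : THL_stmt.{u}) : TSE_stmt.{u} := by
  intro G V _ _ d hA
  obtain ⟨hcvx, hmid, -, -⟩ := hTEL G V d hA
  obtain ⟨-, -, hgeo, -⟩ := hTG V d hA.tm
  have hsym := hA.tm.symm
  have htri := hA.tm.tri
  have part1 : ∀ s t : G, Ell V s → Ell V t → (¬ ∃ v : V, s • v = v ∧ t • v = v) →
      ¬ Ell V (s * t) := by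
    intro s t hs ht hno
    classical
    -- minimal distance
    have hex : ∃ L : ℕ, ∃ p q : V, s • p = p ∧ t • q = q ∧ d p q = L := by
      obtain ⟨p, hp⟩ := hs
      obtain ⟨q, hq⟩ := ht
      exact ⟨_, p, q, hp, hq, rfl⟩
    obtain ⟨p, q, hp, hq, hL⟩ := Nat.find_spec hex
    have hmin : ∀ p' q' : V, s • p' = p' → t • q' = q' → d p q ≤ d p' q' := by
      intro p' q' h1 h2
      rw [hL]
      exact Nat.find_min' hex ⟨p', q', h1, h2, rfl⟩
    have hpq : p ≠ q := by
      rintro rfl
      exact hno ⟨p, hp, hq⟩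
    have hLpos : 1 ≤ d p q := by
      rcases Nat.eq_zero_or_pos (d p q) with h | h
      · exact absurd ((hA.tm.eq p q).mp h) hpq
      · exact h
    have hsinv : s⁻¹ • p = p := by
      rw [inv_smul_eq_iff]; exact hp.symm
    have htinv : t⁻¹ • q = q := by
      rw [inv_smul_eq_iff]; exact hq.symm
    -- general: if g fixes a, and all fixed points m of g have `d b m ≥ d b a`, then
    have key : ∀ (g : G) (a b : V), g • a = a → (∀ m : V, g • m = m → d b a ≤ d b m) →
        Bt d b a (g • b) ∧ d b (g • b) = 2 * d b a ∧ d a (g • b) = d b a := by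
      intro g a b hga hm
      obtain ⟨m, hm1, hm2⟩ := hmid g a hga b
      have e1 : d m (g • b) = d b m := by
        have := hA.iso g m b
        rw [hm2] at this
        rw [this, hsym]
      have e2 : d a (g • b) = d b a := by
        have := hA.iso g a b
        rw [hga] at this
        rw [this, hsym]
      have h1 : d b m + d m (g • b) = d b (g • b) := hm1
      have h2 := htri b a (g • b)
      have h3 := hm m hm2
      have h4 : d b (g • b) = 2 * d b a := by omega
      refine ⟨?_, h4, e2⟩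
      show d b a + d a (g • b) = d b (g • b)
      omega
    have k1 := key s p q hp (fun m hm => by
      have := hmin m q hm hq
      rw [hsym q p, hsym q m]; exact this)
    have k2 := key s⁻¹ p q hsinv (fun m hm => by
      have hm' : s • m = m := by
        rw [inv_smul_eq_iff] at hm; exact hm.symm
      have := hmin m q hm' hq
      rw [hsym q p, hsym q m]; exact this)
    have k3 := key t⁻¹ q p htinv (fun m hm => by
      have hm' : t • m = m := by
        rw [inv_smul_eq_iff] at hm; exact hm.symm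
      exact hmin p m hp hm')
    have hqp : d q p = d p q := hsym q p
    -- the chain
    have c1 : Bt d (t⁻¹ • s⁻¹ • q) (t⁻¹ • p) q := by
      show d (t⁻¹ • s⁻¹ • q) (t⁻¹ • p) + d (t⁻¹ • p) q = d (t⁻¹ • s⁻¹ • q) q
      have a1 := hA.iso t⁻¹ (s⁻¹ • q) p
      have a2 := hA.iso t⁻¹ p q
      have a3 := hA.iso t⁻¹ (s⁻¹ • q) q
      rw [htinv] at a2 a3
      rw [a1, a2, a3]
      have b1 : d q p + d p (s⁻¹ • q) = d q (s⁻¹ • q) := k2.1
      rw [hsym (s⁻¹ • q) p, hsym (s⁻¹ • q) q, hsym p q]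
      omega
    have c2 : Bt d (t⁻¹ • p) q p := by
      show d (t⁻¹ • p) q + d q p = d (t⁻¹ • p) p
      have b1 : d p q + d q (t⁻¹ • p) = d p (t⁻¹ • p) := k3.1
      rw [hsym (t⁻¹ • p) q, hsym (t⁻¹ • p) p, hsym q p]
      omega
    have hne1 : t⁻¹ • p ≠ q := by
      intro h
      apply hpq
      rw [inv_smul_eq_iff] at h
      rw [h, hq]
    obtain ⟨-, c3, c4⟩ := hgeo _ _ _ _ c1 c2 hne1
    obtain ⟨-, -, c5⟩ := hgeo _ _ _ _ c3 k1.1 (Ne.symm hpq)
    have e1 : d (t⁻¹ • s⁻¹ • q) q = 2 * d p q := by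
      have a3 := hA.iso t⁻¹ (s⁻¹ • q) q
      rw [htinv] at a3
      rw [a3, hsym, k2.2.1, hqp]
    have e2 : d (t⁻¹ • s⁻¹ • q) (s • q) = 4 * d p q := by
      rw [c5, e1, k1.2.2]
      omega
    rintro ⟨v, hv⟩
    obtain ⟨m, hm1, hm2⟩ := hmid (s * t) v hv q
    have hstq : (s * t) • q = s • q := by
      rw [mul_smul, hq]
    rw [hstq] at hm1
    have f1 : d m (s • q) = d q m := by
      have := hA.iso (s * t) m q
      rw [hm2, hstq] at this
      rw [this, hsym]
    have f2 : d q m + d m (s • q) = d q (s • q) := hm1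
    have f3 : (s * t)⁻¹ • m = m := by
      rw [inv_smul_eq_iff]; exact hm2.symm
    have f4 : d m (t⁻¹ • s⁻¹ • q) = d q m := by
      have := hA.iso (s * t)⁻¹ m q
      rw [f3, mul_inv_rev, mul_smul] at this
      rw [this, hsym]
    have f5 := htri (t⁻¹ • s⁻¹ • q) m (s • q)
    rw [hsym (t⁻¹ • s⁻¹ • q) m] at f5
    have f6 := k1.2.1
    omega
  refine ⟨part1, fun hall S => ?_⟩
  rcases S.eq_empty_or_nonempty with rfl | hS
  · obtain ⟨v, -⟩ := hall 1
    exact ⟨v, by simp⟩
  · obtain ⟨v, hv⟩ := hTHL V d hA.tm G S (fun g => {v : V | g • v = v}) hS (fun i _ => hcvx i)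
      (fun i _ j _ => by
        by_contra hno
        apply part1 i j (hall i) (hall j) ?_ (hall (i * j))
        rintro ⟨v, h1, h2⟩
        exact hno ⟨v, h1, h2⟩)
    exact ⟨v, hv⟩

end Pool.Agent.helper80.EN
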